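import Pool.Agent.H68.GHK.Targets
import Pool.Agent.H44.GMF.HAR
import Pool.Agent.H14.GHK.EPD
import Pool.Agent.H69.GK.QRD

/-!
Row VOK of the board ghk (MP_52e316_nt): the volume of the flags near a given flag, at the scale of
the parameters.
-/

set_option autoImplicit false

namespace Pool.Agent.H60.GHK

open MeasureTheory Pool.Agent.H34.GM Pool.Agent.H34.GZ Pool.Agent.H34.GU Pool.Agent.H34.GA
  Pool.Agent.H68.GHK

variable {m : ℕ}

theorem vk_ent (z : Mat m) (i j : Fin m) : |z i j| ≤ sz z := by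
  have h1 : ‖(fun j => z i j : Fin m → ℝ)‖ ≤ ‖(fun i j => z i j : V m)‖ :=
    norm_le_pi_norm (fun i j => z i j : V m) i
  have h2 : ‖z i j‖ ≤ ‖(fun j => z i j : Fin m → ℝ)‖ :=
    norm_le_pi_norm (fun j => z i j : Fin m → ℝ) j
  rw [Real.norm_eq_abs] at h2
  exact h2.trans h1

theorem vk_sz_nonneg (z : Mat m) : 0 ≤ sz z := norm_nonneg _

/-- the entries near the orthogonal group -/
theorem vk_two (hm1 : 1 ≤ m) {z : Mat m} (hz : sz (z.transpose * z - 1) ≤ 1 / (4 * m))
    (k i : Fin m) : |z k i| ≤ 2 := by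
  have hm : (1 : ℝ) ≤ m := by exact_mod_cast hm1
  have h1 := (vk_ent (z.transpose * z - 1) i i).trans hz
  have h2 : (1 : ℝ) / (4 * m) ≤ 1 := by
    rw [div_le_one (by positivity)]
    linarith
  rw [Matrix.sub_apply, Matrix.one_apply_eq, Matrix.mul_apply] at h1
  have h3 := (abs_le.mp h1).2
  have h4 : z k i ^ 2 ≤ ∑ l, z.transpose i l * z l i := by
    have : z k i ^ 2 = z.transpose i k * z k i := by
      rw [Matrix.transpose_apply]
      ring
    rw [this]
    refine Finset.single_le_sum (f := fun l => z.transpose i l * z l i) (fun l _ => ?_)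
      (Finset.mem_univ k)
    rw [Matrix.transpose_apply]
    exact mul_self_nonneg _
  refine abs_le_of_sq_le_sq ?_ (by norm_num)
  linarith

/-- invertible near the orthogonal group -/
theorem vk_det (hm1 : 1 ≤ m) {z : Mat m} (hz : sz (z.transpose * z - 1) ≤ 1 / (4 * m)) :
    z.det ≠ 0 := by
  have hm : (1 : ℝ) ≤ m := by exact_mod_cast hm1
  have h1 : (z.transpose * z).det ≠ 0 := by
    refine det_ne_zero_of_sum_row_lt_diag (fun k => ?_)
    have h2 : ∀ j ∈ Finset.univ.erase k, ‖(z.transpose * z) k j‖ ≤ 1 / (4 * m) := by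
      intro j hj
      have h3 := (vk_ent (z.transpose * z - 1) k j).trans hz
      rw [Matrix.sub_apply, Matrix.one_apply_ne (Finset.ne_of_mem_erase hj).symm, sub_zero] at h3
      exact h3
    have h4 := Finset.sum_le_sum h2
    rw [Finset.sum_const, Finset.card_erase_of_mem (Finset.mem_univ k), Finset.card_univ,
      Fintype.card_fin, nsmul_eq_mul] at h4
    have h5 := (vk_ent (z.transpose * z - 1) k k).trans hz
    rw [Matrix.sub_apply, Matrix.one_apply_eq] at h5
    have h6 := (abs_le.mp h5).1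
    have h7 : ((m - 1 : ℕ) : ℝ) * (1 / (4 * m)) ≤ 1 / 4 := by
      have h8 : ((m - 1 : ℕ) : ℝ) ≤ m := by exact_mod_cast Nat.sub_le _ _
      have h9 : (m : ℝ) * (1 / (4 * m)) = 1 / 4 := by field_simp
      rw [← h9]
      exact mul_le_mul_of_nonneg_right h8 (by positivity)
    have h8 : (1 : ℝ) / (4 * m) ≤ 1 / 4 :=
      one_div_le_one_div_of_le (by norm_num) (by linarith)
    have h9 : (z.transpose * z) k k ≤ ‖(z.transpose * z) k k‖ := Real.le_norm_self _
    linarith
  intro h
  rw [Matrix.det_mul, h, mul_zero] at h1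
  exact h1 rfl

theorem vk_EP {w : Mat m} {j : ℕ} (h : j ≤ m) : EP j w = Pool.Agent.H14.GHK.Ep w j := by
  unfold EP Pool.Agent.H14.GHK.Ep
  rw [dif_pos h, dif_pos h]
  rfl

/-- the projection fixes the columns -/
theorem vk_col {w : Mat m} (hw : w.det ≠ 0) {j : ℕ} (h : j ≤ m) (i : Fin m) (hi : (i : ℕ) < j)
    (k : Fin m) : (EP j w * w) k i = w k i := by
  have h1 := Pool.Agent.H14.GHK.Ep_cl hw h
  have h2 := congrFun (congrFun h1 k) (⟨i, hi⟩ : Fin j)
  rw [vk_EP h]
  have h3 : Fin.castLE h (⟨i, hi⟩ : Fin j) = i := by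
    ext
    rfl
  have h4 : (Pool.Agent.H14.GHK.Ep w j * Pool.Agent.H14.GHK.cl w h) k (⟨i, hi⟩ : Fin j) =
      (Pool.Agent.H14.GHK.Ep w j * w) k i := by
    rw [Matrix.mul_apply, Matrix.mul_apply]
    refine Finset.sum_congr rfl fun l _ => ?_
    change Pool.Agent.H14.GHK.Ep w j k l * w l (Fin.castLE h (⟨i, hi⟩ : Fin j)) = _
    rw [h3]
  have h5 : Pool.Agent.H14.GHK.cl w h k (⟨i, hi⟩ : Fin j) = w k i := by
    change w k (Fin.castLE h (⟨i, hi⟩ : Fin j)) = _
    rw [h3]
  rw [← h4, h2, h5]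

/-- the rows of the projection in the adapted basis -/
theorem vk_row {w u a : Mat m} (hu : u * u.transpose = 1) (hw : w = u * a)
    (ha : ∀ i j : Fin m, j < i → a i j = 0) {j : ℕ} (h : j ≤ m) (l : Fin m) (hl : j ≤ (l : ℕ))
    (k : Fin m) : (u.transpose * EP j w) l k = 0 := by
  have hu' : u.transpose * u = 1 := mul_eq_one_comm.mp hu
  rw [vk_EP h, Pool.Agent.H14.GHK.Ep_le w h, Matrix.mul_assoc, ← Matrix.mul_assoc, Matrix.mul_apply]
  refine Finset.sum_eq_zero fun i _ => ?_
  have h1 : (u.transpose * Pool.Agent.H14.GHK.cl w h) l i = 0 := by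
    have h2 : (u.transpose * Pool.Agent.H14.GHK.cl w h) l i =
        (u.transpose * w) l (Fin.castLE h i) := by
      rw [Matrix.mul_apply, Matrix.mul_apply]
      rfl
    rw [h2, hw, ← Matrix.mul_assoc, hu', Matrix.one_mul]
    refine ha _ _ ?_
    rw [Fin.lt_def]
    have := i.isLt
    simp only [Fin.val_castLE]
    omega
  rw [h1, zero_mul]

theorem vk_orth {u : Mat m} (hu : u * u.transpose = 1) (k l : Fin m) : |u k l| ≤ 1 := by
  have h1 := congrFun (congrFun hu k) k
  rw [Matrix.one_apply_eq, Matrix.mul_apply] at h1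
  have h2 : u k l ^ 2 ≤ ∑ i, u k i * u.transpose i k := by
    have : u k l ^ 2 = u k l * u.transpose l k := by
      rw [Matrix.transpose_apply]
      ring
    rw [this]
    refine Finset.single_le_sum (f := fun i => u k i * u.transpose i k) (fun i _ => ?_)
      (Finset.mem_univ l)
    rw [Matrix.transpose_apply]
    exact mul_self_nonneg _
  refine abs_le_of_sq_le_sq ?_ (by norm_num)
  linarith

/-- the entries below the diagonal are bounded by the distance of the projections -/
theorem vk_key {w u a w' : Mat m} (hu : u * u.transpose = 1) (hw : w = u * a)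
    (ha : ∀ i j : Fin m, j < i → a i j = 0) (hd : w'.det ≠ 0) (h2 : ∀ k i, |w' k i| ≤ 2)
    (l i : Fin m) {j : ℕ} (hij : (i : ℕ) < j) (hjl : j ≤ (l : ℕ)) :
    |(u.transpose * w') l i| ≤ 2 * (m : ℝ) ^ 2 * sz (EP j w - EP j w') := by
  have hjm : j ≤ m := hjl.trans l.isLt.le
  have e1 : (u.transpose * (EP j w - EP j w') * w') l i = -(u.transpose * w') l i := by
    rw [Matrix.mul_sub, Matrix.sub_mul, Matrix.sub_apply]
    have e2 : (u.transpose * EP j w * w') l i = 0 := by
      rw [Matrix.mul_apply]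
      refine Finset.sum_eq_zero fun k _ => ?_
      rw [vk_row hu hw ha hjm l hjl k, zero_mul]
    have e3 : (u.transpose * EP j w' * w') l i = (u.transpose * w') l i := by
      rw [Matrix.mul_assoc, Matrix.mul_apply, Matrix.mul_apply]
      refine Finset.sum_congr rfl fun k _ => ?_
      rw [vk_col hd hjm i hij k]
    rw [e2, e3, zero_sub]
  have e4 : |(u.transpose * w') l i| = |(u.transpose * (EP j w - EP j w') * w') l i| := by
    rw [e1, abs_neg]
  rw [e4, Matrix.mul_apply]
  refine (Finset.abs_sum_le_sum_abs _ _).trans ?_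
  have e5 : ∀ k ∈ (Finset.univ : Finset (Fin m)),
      |(u.transpose * (EP j w - EP j w')) l k * w' k i| ≤
        (m : ℝ) * sz (EP j w - EP j w') * 2 := by
    intro k _
    rw [abs_mul]
    refine mul_le_mul ?_ (h2 k i) (abs_nonneg _) (mul_nonneg (by positivity) (vk_sz_nonneg _))
    rw [Matrix.mul_apply]
    refine (Finset.abs_sum_le_sum_abs _ _).trans ?_
    have e6 : ∀ b ∈ (Finset.univ : Finset (Fin m)),
        |u.transpose l b * (EP j w - EP j w') b k| ≤ sz (EP j w - EP j w') := by
      intro b _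
      rw [abs_mul, Matrix.transpose_apply]
      calc |u b l| * |(EP j w - EP j w') b k| ≤ 1 * sz (EP j w - EP j w') :=
            mul_le_mul (vk_orth hu b l) (vk_ent _ b k) (abs_nonneg _) zero_le_one
        _ = _ := one_mul _
    refine (Finset.sum_le_sum e6).trans (le_of_eq ?_)
    rw [Finset.sum_const, Finset.card_univ, Fintype.card_fin, nsmul_eq_mul]
  refine (Finset.sum_le_sum e5).trans (le_of_eq ?_)
  rw [Finset.sum_const, Finset.card_univ, Fintype.card_fin, nsmul_eq_mul]
  ring

/-- the sum of the gaps -/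
theorem vk_gap (mu : Fin m → ℂ) (i l : Fin m) (hil : i < l) :
    ∑ j ∈ Finset.Ioc (i : ℕ) (l : ℕ), Pool.Agent.H68.GHK.bt mu j = ((mu l).im - (mu i).im) / 2 := by
  obtain ⟨f, hf⟩ : ∃ f : ℕ → ℝ, ∀ (j : ℕ) (h : j < m), f j = (mu ⟨j, h⟩).im :=
    ⟨fun j => if h : j < m then (mu ⟨j, h⟩).im else 0, fun j h => by simp only [dif_pos h]⟩
  have h1 : ∀ n : ℕ, (i : ℕ) ≤ n → n < m →
      ∑ j ∈ Finset.Ioc (i : ℕ) n, Pool.Agent.H68.GHK.bt mu j = (f n - f i) / 2 := by
    intro n hn
    induction n, hn using Nat.le_induction with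
    | base =>
      intro _
      simp
    | succ n hn ih =>
      intro hnm
      rw [Finset.sum_Ioc_succ_top hn, ih (by omega)]
      have h3 : Pool.Agent.H68.GHK.bt mu (n + 1) = (f (n + 1) - f n) / 2 := by
        unfold Pool.Agent.H68.GHK.bt
        rw [dif_pos (⟨by omega, hnm⟩ : 1 ≤ n + 1 ∧ n + 1 < m), hf (n + 1) hnm,
          hf n (by omega)]
        rfl
      rw [h3]
      ring
  have h2 := h1 l (le_of_lt hil) l.isLt
  rw [h2, hf l l.isLt, hf i i.isLt]

theorem vk_bt {mu : Fin m → ℂ} (hmu : Monotone (fun j => (mu j).im)) (j : ℕ) :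
    0 ≤ Pool.Agent.H68.GHK.bt mu j := by
  unfold Pool.Agent.H68.GHK.bt
  split_ifs with h
  · have h1 := hmu (show (⟨j - 1, by omega⟩ : Fin m) ≤ ⟨j, h.2⟩ from by
      rw [Fin.le_def]
      simp only
      omega)
    simp only at h1
    linarith
  · exact le_rfl

/-- the distance of the flags bounds the entries -/
theorem vk_pair {mu : Fin m → ℂ} (hmu : Monotone (fun j => (mu j).im)) {w u a w' : Mat m}
    (hm1 : 1 ≤ m) (hu : u * u.transpose = 1) (hw : w = u * a)
    (ha : ∀ i j : Fin m, j < i → a i j = 0) (hd : w'.det ≠ 0) (h2 : ∀ k i, |w' k i| ≤ 2)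
    (l i : Fin m) (hil : i < l) :
    ((mu l).im - (mu i).im) / (4 * (m : ℝ) ^ 2) * |(u.transpose * w') l i| ≤ Gg mu w w' := by
  have hm : (1 : ℝ) ≤ m := by exact_mod_cast hm1
  have h1 : ∑ j ∈ Finset.Ioc (i : ℕ) (l : ℕ), Pool.Agent.H68.GHK.bt mu j *
      sz (EP j w - EP j w') ≤ Gg mu w w' := by
    unfold Gg
    refine Finset.sum_le_sum_of_subset_of_nonneg ?_ (fun j _ _ =>
      mul_nonneg (vk_bt hmu j) (vk_sz_nonneg _))
    intro j hj
    rw [Finset.mem_Ioc] at hj
    rw [Finset.mem_range]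
    have := l.isLt
    omega
  refine le_trans ?_ h1
  have h3 : ∀ j ∈ Finset.Ioc (i : ℕ) (l : ℕ),
      Pool.Agent.H68.GHK.bt mu j * (|(u.transpose * w') l i| / (2 * (m : ℝ) ^ 2)) ≤
        Pool.Agent.H68.GHK.bt mu j * sz (EP j w - EP j w') := by
    intro j hj
    rw [Finset.mem_Ioc] at hj
    refine mul_le_mul_of_nonneg_left ?_ (vk_bt hmu j)
    rw [div_le_iff₀ (by positivity), mul_comm]
    exact vk_key hu hw ha hd h2 l i hj.1 hj.2
  refine le_trans (le_of_eq ?_) (Finset.sum_le_sum h3)
  rw [← Finset.sum_mul, vk_gap mu i l hil]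
  field_simp
  ring

/-- the profile in one variable -/
noncomputable def vf (c x : ℝ) : ℝ :=
  (Set.Icc (-2 : ℝ) 2).indicator (fun x => (1 + (c * x) ^ 2)⁻¹) x

theorem vf_nonneg (c x : ℝ) : 0 ≤ vf c x := by
  unfold vf
  exact Set.indicator_nonneg (fun y _ => by positivity) x

theorem vf_le (c x : ℝ) : vf c x ≤ (Set.Icc (-2 : ℝ) 2).indicator (fun _ => (1 : ℝ)) x := by
  unfold vf
  refine Set.indicator_le_indicator ?_
  refine inv_le_one_of_one_le₀ ?_
  have := sq_nonneg (c * x)
  linarith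

theorem vf_meas (c : ℝ) : Measurable (vf c) := by
  unfold vf
  refine Measurable.indicator ?_ measurableSet_Icc
  fun_prop

theorem vf_one_int : Integrable ((Set.Icc (-2 : ℝ) 2).indicator (fun _ => (1 : ℝ))) := by
  rw [integrable_indicator_iff measurableSet_Icc]
  exact integrableOn_const (by simp)

theorem vf_int (c : ℝ) : Integrable (vf c) := by
  refine vf_one_int.mono' (vf_meas c).aestronglyMeasurable (Filter.Eventually.of_forall fun x => ?_)
  rw [Real.norm_eq_abs, abs_of_nonneg (vf_nonneg c x)]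
  exact vf_le c x

theorem vf_four (c : ℝ) : ∫ x, vf c x ≤ 4 := by
  refine (integral_mono (vf_int c) vf_one_int (vf_le c)).trans (le_of_eq ?_)
  rw [integral_indicator measurableSet_Icc]
  simp
  norm_num

theorem vf_pi {c : ℝ} (hc : 0 < c) : c * ∫ x, vf c x ≤ Real.pi := by
  have h1 : ∫ x, vf c x ≤ ∫ x : ℝ, (1 + (c * x) ^ 2)⁻¹ := by
    refine integral_mono (vf_int c) ?_ ?_
    · have h2 := integrable_inv_one_add_sq.comp_mul_left' hc.ne'
      exact h2
    · intro x
      unfold vf
      exact Set.indicator_le_self' (fun y _ => by positivity) x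
  have h2 : ∫ x : ℝ, (1 + (c * x) ^ 2)⁻¹ = c⁻¹ * Real.pi := by
    have h3 := Measure.integral_comp_mul_left (fun x : ℝ => (1 + x ^ 2)⁻¹) c
    rw [integral_univ_inv_one_add_sq, abs_of_pos (inv_pos.mpr hc), smul_eq_mul] at h3
    exact h3
  rw [h2] at h1
  calc c * ∫ x, vf c x ≤ c * (c⁻¹ * Real.pi) := mul_le_mul_of_nonneg_left h1 hc.le
    _ = Real.pi := by field_simp

/-- one pair -/
theorem vf_bound {K d : ℝ} (hK : 1 ≤ K) (hd : 0 ≤ d) :
    ∫ x, vf (d / K) x ≤ (4 + K * Real.pi) * (1 + d)⁻¹ := by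
  have hK0 : 0 < K := by linarith
  rw [← div_eq_mul_inv, le_div_iff₀ (by linarith)]
  have h1 := vf_four (d / K)
  have h2 : (∫ x, vf (d / K) x) * d ≤ K * Real.pi := by
    rcases hd.eq_or_lt with h | h
    · rw [← h, mul_zero]
      positivity
    · have h3 := vf_pi (div_pos h hK0)
      have h4 : (∫ x, vf (d / K) x) * d = K * (d / K * ∫ x, vf (d / K) x) := by
        field_simp
      rw [h4]
      exact mul_le_mul_of_nonneg_left h3 hK0.le
  linarith

theorem vk_bdd {κ : Mat m → ℝ} (hm1 : 1 ≤ m) (hk : Kap m κ) : ∃ B : ℝ, 0 ≤ B ∧ ∀ w : V m,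
    κ (mt w) ≤ B := by
  have h1 : IsCompact (Metric.closedBall (0 : V m) 2) := isCompact_closedBall _ _
  obtain ⟨B, hB⟩ := h1.exists_bound_of_continuousOn (f := fun w : V m => κ (mt w))
    hk.cont.continuousOn
  refine ⟨max B 0, le_max_right _ _, fun w => ?_⟩
  by_cases h : κ (mt w) = 0
  · rw [h]
    exact le_max_right _ _
  · refine le_trans ?_ (le_max_left _ _)
    refine le_trans (Real.le_norm_self _) (hB w ?_)
    rw [Metric.mem_closedBall, dist_zero_right, pi_norm_le_iff_of_nonneg (by norm_num)]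
    intro i
    rw [pi_norm_le_iff_of_nonneg (by norm_num)]
    intro j
    exact vk_two hm1 (hk.supp _ h) i j

/-- Lebesgue measure and orthogonal matrices -/
theorem vk_inv {q : Mat m} (hq : q * q.transpose = 1) (f : V m → ENNReal) (hf : Measurable f) :
    ∫⁻ w : V m, f (Pool.Agent.H44.GMF.LM q w) = ∫⁻ w : V m, f w := by
  have hd : |q.det| = 1 := by
    have h1 : q.det * q.det = 1 := by
      have h2 := congrArg Matrix.det hq
      rwa [Matrix.det_mul, Matrix.det_transpose, Matrix.det_one] at h2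
    have h3 : |q.det| * |q.det| = 1 := by rw [← abs_mul, h1, abs_one]
    nlinarith [abs_nonneg q.det]
  have hL : LinearMap.det (Pool.Agent.H44.GMF.LM q) = q.det ^ m := Pool.Agent.H44.GMF.det_LM q
  have hne : LinearMap.det (Pool.Agent.H44.GMF.LM q) ≠ 0 := by
    rw [hL]
    refine pow_ne_zero _ ?_
    intro h
    rw [h, abs_zero] at hd
    exact zero_ne_one hd
  have hLm : Measurable (fun z : V m => Pool.Agent.H44.GMF.LM q z) :=
    (LinearMap.continuous_of_finiteDimensional (Pool.Agent.H44.GMF.LM q)).measurable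
  have key := Measure.map_linearMap_addHaar_eq_smul_addHaar (volume : Measure (V m)) hne
  have e2 := lintegral_map (μ := (volume : Measure (V m))) hf hLm
  rw [← e2, key, hL, abs_inv, abs_pow, hd, one_pow, inv_one, ENNReal.ofReal_one, one_smul]

/-- the product of the profiles -/
noncomputable def vh (c : Fin m → Fin m → ℝ) (w : V m) : ℝ := ∏ l, ∏ i, vf (c l i) (w l i)

theorem vh_nonneg (c : Fin m → Fin m → ℝ) (w : V m) : 0 ≤ vh c w :=
  Finset.prod_nonneg fun _ _ => Finset.prod_nonneg fun _ _ => vf_nonneg _ _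

theorem vh_meas (c : Fin m → Fin m → ℝ) : Measurable (vh c) := by
  unfold vh
  refine Finset.measurable_prod _ fun l _ => Finset.measurable_prod _ fun i _ => ?_
  exact (vf_meas (c l i)).comp ((measurable_pi_apply i).comp (measurable_pi_apply l))

theorem vh_int (c : Fin m → Fin m → ℝ) : Integrable (vh c) ∧
    ∫ w : V m, vh c w = ∏ l, ∏ i, ∫ x, vf (c l i) x := by
  have h1 : ∀ l : Fin m, Integrable (fun x : Fin m → ℝ => ∏ i, vf (c l i) (x i)) := fun l =>
    Integrable.fintype_prod (f := fun i x => vf (c l i) x) fun i => vf_int (c l i)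
  constructor
  · exact Integrable.fintype_prod (f := fun l (x : Fin m → ℝ) => ∏ i, vf (c l i) (x i)) h1
  · have h2 := integral_fintype_prod_volume_eq_prod (𝕜 := ℝ)
      (fun (l : Fin m) (x : Fin m → ℝ) => ∏ i, vf (c l i) (x i))
    unfold vh
    rw [h2]
    refine Finset.prod_congr rfl fun l _ => ?_
    exact integral_fintype_prod_volume_eq_prod (𝕜 := ℝ) (fun (i : Fin m) (x : ℝ) => vf (c l i) x)

theorem pf_VOK : T_VOK := by
  intro m κ hm1 hk
  have hm : (1 : ℝ) ≤ m := by exact_mod_cast hm1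
  obtain ⟨B, hB0, hB⟩ := vk_bdd hm1 hk
  obtain ⟨K, hK⟩ : ∃ K : ℝ, K = 4 * (m : ℝ) ^ 2 := ⟨_, rfl⟩
  have hK1 : 1 ≤ K := by
    rw [hK]
    nlinarith
  have hK0 : 0 < K := by linarith
  obtain ⟨C1, hC1⟩ : ∃ C1 : ℝ, C1 = 4 + K * Real.pi := ⟨_, rfl⟩
  have hC14 : 4 ≤ C1 := by
    rw [hC1]
    have := Real.pi_pos
    have : 0 ≤ K * Real.pi := by positivity
    linarith
  have hC0 : 0 < C1 := by linarith
  refine ⟨2 * (m * m), (B + 1) * (C1 ^ m) ^ m, by positivity, ?_⟩
  intro mu hmu w hw
  obtain ⟨u, a, hu, hwu, ha, -⟩ := Pool.Agent.H69.GK.exists_qr w hw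
  obtain ⟨c, hc⟩ : ∃ c : Fin m → Fin m → ℝ, c = fun l i =>
    if i < l then ((mu l).im - (mu i).im) / K else 0 := ⟨_, rfl⟩
  have hmon : ∀ l i : Fin m, i < l → 0 ≤ (mu l).im - (mu i).im := by
    intro l i hil
    have := hmu hil.le
    simp only at this
    linarith
  -- the pointwise bound
  have hpt : ∀ w' : V m, κ (mt w') * ((1 + Gg mu w (mt w')) ^ (2 * (m * m)))⁻¹ ≤
      B * vh c (Pool.Agent.H44.GMF.LM u.transpose w') := by
    intro w'
    by_cases h0 : κ (mt w') = 0
    · rw [h0, zero_mul]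
      exact mul_nonneg hB0 (vh_nonneg _ _)
    have hs := hk.supp _ h0
    have h2 : ∀ k i, |(mt w') k i| ≤ 2 := vk_two hm1 hs
    have hd : (mt w').det ≠ 0 := vk_det hm1 hs
    have hs' : sz ((u.transpose * mt w').transpose * (u.transpose * mt w') - 1) ≤ 1 / (4 * m) := by
      have e1 : (u.transpose * mt w').transpose * (u.transpose * mt w') =
          (mt w').transpose * mt w' := by
        rw [Matrix.transpose_mul, Matrix.transpose_transpose, Matrix.mul_assoc,
          ← Matrix.mul_assoc u, hu, Matrix.one_mul]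
      rw [e1]
      exact hs
    have h3 : ∀ k i, |(u.transpose * mt w') k i| ≤ 2 := vk_two hm1 hs'
    have hG0 : 0 ≤ Gg mu w (mt w') := by
      unfold Gg
      exact Finset.sum_nonneg fun j _ => mul_nonneg (vk_bt hmu j) (vk_sz_nonneg _)
    refine mul_le_mul (hB w') ?_ (by positivity) hB0
    -- the product
    have e2 : vh c (Pool.Agent.H44.GMF.LM u.transpose w') =
        ∏ l, ∏ i, (1 + (c l i * (u.transpose * mt w') l i) ^ 2)⁻¹ := by
      unfold vh
      refine Finset.prod_congr rfl fun l _ => Finset.prod_congr rfl fun i _ => ?_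
      rw [Pool.Agent.H44.GMF.LM_apply]
      unfold vf
      rw [Set.indicator_of_mem]
      exact abs_le.mp (h3 l i)
    rw [e2]
    have e3 : ∏ l : Fin m, ∏ i : Fin m, (1 + (c l i * (u.transpose * mt w') l i) ^ 2)⁻¹ =
        (∏ l : Fin m, ∏ i : Fin m, (1 + (c l i * (u.transpose * mt w') l i) ^ 2))⁻¹ := by
      rw [← Finset.prod_inv_distrib]
      refine Finset.prod_congr rfl fun l _ => ?_
      rw [← Finset.prod_inv_distrib]
    rw [e3]
    refine inv_anti₀ ?_ ?_
    · exact Finset.prod_pos fun l _ => Finset.prod_pos fun i _ => by positivity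
    have e4 : ∀ l i : Fin m, 1 + (c l i * (u.transpose * mt w') l i) ^ 2 ≤
        (1 + Gg mu w (mt w')) ^ 2 := by
      intro l i
      have e5 : |c l i * (u.transpose * mt w') l i| ≤ Gg mu w (mt w') := by
        rw [hc]
        simp only
        split_ifs with hil
        · rw [abs_mul, abs_of_nonneg (div_nonneg (hmon l i hil) hK0.le), hK]
          exact vk_pair hmu hm1 hu hwu ha hd h2 l i hil
        · rw [zero_mul, abs_zero]
          exact hG0
      have e6 : (c l i * (u.transpose * mt w') l i) ^ 2 ≤ Gg mu w (mt w') ^ 2 := by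
        rw [← sq_abs (c l i * (u.transpose * mt w') l i)]
        exact pow_le_pow_left₀ (abs_nonneg _) e5 2
      nlinarith
    calc ∏ l : Fin m, ∏ i : Fin m, (1 + (c l i * (u.transpose * mt w') l i) ^ 2) ≤
        ∏ _l : Fin m, ∏ _i : Fin m, (1 + Gg mu w (mt w')) ^ 2 := by
          refine Finset.prod_le_prod (fun l _ => Finset.prod_nonneg fun i _ => by positivity)
            fun l _ => Finset.prod_le_prod (fun i _ => by positivity) fun i _ => e4 l i
      _ = (1 + Gg mu w (mt w')) ^ (2 * (m * m)) := by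
          rw [Finset.prod_const, Finset.prod_const, Finset.card_univ, Fintype.card_fin, ← pow_mul,
            ← pow_mul]
  -- the integral of the product
  have hI : ∫ w : V m, vh c w ≤ (C1 ^ m) ^ m / Wt mu := by
    rw [(vh_int c).2]
    have e1 : ∀ l i : Fin m, ∫ x, vf (c l i) x ≤
        C1 * (if i < l then (1 + |(mu l).im - (mu i).im|) else 1)⁻¹ := by
      intro l i
      rw [hc]
      simp only
      split_ifs with hil
      · rw [abs_of_nonneg (hmon l i hil), hC1]
        exact vf_bound hK1 (hmon l i hil)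
      · rw [inv_one, mul_one]
        exact (vf_four 0).trans hC14
    calc ∏ l : Fin m, ∏ i : Fin m, ∫ x, vf (c l i) x ≤
        ∏ l : Fin m, ∏ i : Fin m,
          (C1 * (if i < l then (1 + |(mu l).im - (mu i).im|) else 1)⁻¹) := by
          refine Finset.prod_le_prod (fun l _ => Finset.prod_nonneg fun i _ =>
            integral_nonneg fun x => vf_nonneg _ _) fun l _ =>
            Finset.prod_le_prod (fun i _ => integral_nonneg fun x => vf_nonneg _ _)
              fun i _ => e1 l i
      _ = (C1 ^ m) ^ m / Wt mu := by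
          have e2 : Wt mu = ∏ l : Fin m, ∏ i : Fin m,
              (if i < l then (1 + |(mu l).im - (mu i).im|) else 1) := by
            unfold Wt
            exact Finset.prod_comm
          rw [e2, div_eq_mul_inv, ← Finset.prod_inv_distrib]
          simp only [← Finset.prod_inv_distrib, Finset.prod_mul_distrib, Finset.prod_const,
            Finset.card_univ, Fintype.card_fin]
  have hW0 : 0 < Wt mu := by
    unfold Wt
    refine Finset.prod_pos fun i _ => Finset.prod_pos fun j _ => ?_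
    split_ifs
    · positivity
    · exact zero_lt_one
  calc ∫⁻ w' : V m, ENNReal.ofReal (κ (mt w') * ((1 + Gg mu w (mt w')) ^ (2 * (m * m)))⁻¹) ≤
      ∫⁻ w' : V m, ENNReal.ofReal (B * vh c (Pool.Agent.H44.GMF.LM u.transpose w')) :=
        lintegral_mono fun w' => ENNReal.ofReal_le_ofReal (hpt w')
    _ = ∫⁻ w' : V m, ENNReal.ofReal (B * vh c w') := by
        have hu' : u.transpose * u.transpose.transpose = 1 := by
          rw [Matrix.transpose_transpose]
          exact mul_eq_one_comm.mp hu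
        exact vk_inv hu' (fun w' => ENNReal.ofReal (B * vh c w'))
          ((vh_meas c).const_mul B).ennreal_ofReal
    _ = ENNReal.ofReal (∫ w' : V m, B * vh c w') := by
        rw [ofReal_integral_eq_lintegral_ofReal ((vh_int c).1.const_mul B)
          (Filter.Eventually.of_forall fun w' => mul_nonneg hB0 (vh_nonneg c w'))]
    _ ≤ ENNReal.ofReal ((B + 1) * (C1 ^ m) ^ m / Wt mu) := by
        refine ENNReal.ofReal_le_ofReal ?_
        rw [integral_const_mul]
        calc B * ∫ w' : V m, vh c w' ≤ B * ((C1 ^ m) ^ m / Wt mu) :=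
              mul_le_mul_of_nonneg_left hI hB0
          _ ≤ (B + 1) * ((C1 ^ m) ^ m / Wt mu) := by
              refine mul_le_mul_of_nonneg_right (by linarith) (by positivity)
          _ = _ := by ring

end Pool.Agent.H60.GHK
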